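import Mathlib
import Pool.Agent.CoL18.Final

/-!
Hadwiger's conjecture for complements of line graphs.
-/

set_option autoImplicit false

namespace Pool.Agent.Results.MP_b47bfb_co.CoLineGraph

/-- Let every vertex `v` of the finite graph `G` carry a set `s v` with at most two elements such that
two different vertices are adjacent if and only if their sets are disjoint. If `G` has no proper
colouring with `k` colours then `K_{k+1}` is a minor of `G`. -/
theorem result {V α : Type} [Fintype V] (G : SimpleGraph V) (s : V → Finset α)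
    (htwo : ∀ v, (s v).card ≤ 2)
    (hadj : ∀ u v, u ≠ v → (G.Adj u v ↔ Disjoint (s u) (s v)))
    (k : ℕ) (hk : ¬ G.Colorable k) :
    ∃ f : Fin (k + 1) → Set V,
      (∀ i, (G.induce (f i)).Connected) ∧
      (∀ i j, i ≠ j → Disjoint (f i) (f j)) ∧
      (∀ i j, i ≠ j → ∃ u ∈ f i, ∃ v ∈ f j, G.Adj u v) :=
  Pool.Agent.CoL18.main ⟨htwo, hadj⟩ hk

end Pool.Agent.Results.MP_b47bfb_co.CoLineGraph
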